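import Pool.Agent.X14.QF3

/-!
# A q-congruence for a sum with factor `[8k-1]`
-/

set_option autoImplicit false

namespace Pool.Agent.Results.MP_97831a_nt.AllOddN

open Finset Polynomial

noncomputable section

/-- The indeterminate `q`, as an element of `ℚ(q)`. -/
def q : RatFunc ℚ := RatFunc.X

/-- The q-integer `[m] = (1 - q^m)/(1 - q)` for an integer `m`. -/
def qint (m : ℤ) : RatFunc ℚ := (1 - q ^ m) / (1 - q)

/-- The q-shifted factorial `(a; x)_k = (1 - a)(1 - a x) ⋯ (1 - a x^{k-1})`. -/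
def qp (a x : RatFunc ℚ) (k : ℕ) : RatFunc ℚ := ∏ j ∈ range k, (1 - a * x ^ j)

/-- `A_k(q) = (q^{-1};q^4)_k/(q^4;q^4)_k`. -/
def A (k : ℕ) : RatFunc ℚ := qp q⁻¹ (q ^ 4) k / qp (q ^ 4) (q ^ 4) k

/-- `B_k(q) = (q^2;q^2)_{2k}/(q^{-1};q^2)_{2k}`. -/
def B (k : ℕ) : RatFunc ℚ := qp (q ^ 2) (q ^ 2) (2 * k) / qp q⁻¹ (q ^ 2) (2 * k)

/-- `S_n(q)`, the sum over `0 ≤ k ≤ n - 1`. -/
def S (n : ℕ) : RatFunc ℚ := ∑ k ∈ range n, qint (8 * (k : ℤ) - 1) * A k ^ 6 * B k * q ^ (8 * k)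

/-- The polynomial `[n] = 1 + X + ⋯ + X^{n-1}`. -/
def br (n : ℕ) : ℚ[X] := ∑ i ∈ range n, X ^ i

/-- `R ≡ 0 (mod P)`: the reduced denominator of `R` is coprime to `P` and `P` divides the reduced
numerator of `R`. -/
def Zero (P : ℚ[X]) (R : RatFunc ℚ) : Prop := IsCoprime R.denom P ∧ P ∣ R.num

open Pool.Agent.X14 QL QBlock

lemma q_def : q = QL.q := rfl

lemma qp_two (a : RatFunc ℚ) (k : ℕ) : qp a (q ^ 2) (2 * k) = qp a (q ^ 4) k * qp (a * q ^ 2) (q ^ 4) k := by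
  induction k with
  | zero => simp [qp]
  | succ k ih =>
    have h : ∀ (x y : RatFunc ℚ) (m : ℕ), qp x y (m + 1) = qp x y m * (1 - x * y ^ m) := by
      intro x y m; unfold qp; rw [prod_range_succ]
    rw [show 2 * (k + 1) = 2 * k + 1 + 1 by ring, h, h, h, h, ih]
    have h1 : (q ^ 2) ^ (2 * k) = (q ^ 4) ^ k := by rw [← pow_mul, ← pow_mul]; congr 1; ring
    have h2 : (q ^ 2) ^ (2 * k + 1) = (q ^ 4) ^ k * q ^ 2 := by rw [pow_succ, h1]
    rw [h1, h2]; ring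

lemma qp_e (c : ℤ) (k : ℕ) : qp (q ^ c) (q ^ 4) k = ∏ j ∈ range k, e (4 * (j : ℤ) + c) := by
  unfold qp
  apply prod_congr rfl
  intro j _
  rw [q_def]
  exact one_e (by rw [q4z, qz_mul, add_comm])

lemma term_eq (k : ℕ) : qint (8 * (k : ℤ) - 1) * A k ^ 6 * B k * q ^ (8 * k) = (1 - q)⁻¹ * T5 k := by
  have h1 : qp q⁻¹ (q ^ 4) k = ∏ j ∈ range k, e (4 * (j : ℤ) - 1) := by
    have := qp_e (-1) k; rwa [zpow_neg_one] at this
  have h4 : qp (q ^ 4) (q ^ 4) k = ∏ j ∈ range k, e (4 * (j : ℤ) + 4) := by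
    have := qp_e 4 k; exact_mod_cast this
  have h2 : qp (q ^ 2) (q ^ 4) k = ∏ j ∈ range k, e (4 * (j : ℤ) + 2) := by
    have := qp_e 2 k; exact_mod_cast this
  have h3 : qp (q⁻¹ * q ^ 2) (q ^ 4) k = ∏ j ∈ range k, e (4 * (j : ℤ) + 1) := by
    have := qp_e 1 k
    rw [zpow_one] at this
    have hq : q⁻¹ * q ^ 2 = q := by
      have := q_ne
      rw [q_def]; field_simp
    rwa [hq]
  have h5 : qp (q ^ 2 * q ^ 2) (q ^ 4) k = ∏ j ∈ range k, e (4 * (j : ℤ) + 4) := by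
    rw [show q ^ 2 * q ^ 2 = q ^ 4 by ring]; exact h4
  have h8 : qint (8 * (k : ℤ) - 1) = (1 - q)⁻¹ * e (8 * (k : ℤ) - 1) := by
    unfold qint e
    rw [q_def, div_eq_mul_inv, mul_comm]
  unfold A B T5 X5 Y5
  rw [qp_two, qp_two, h1, h2, h3, h4, h5, h8, prod_div_distrib, prod_div_distrib, ← q_def]
  have n1 : (∏ j ∈ range k, e (4 * (j : ℤ) - 1)) ≠ 0 := prod_ne_zero_iff.2 (fun j _ => e_ne (by omega))
  have n3 : (∏ j ∈ range k, e (4 * (j : ℤ) + 1)) ≠ 0 := prod_ne_zero_iff.2 (fun j _ => e_ne (by omega))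
  have n4 : (∏ j ∈ range k, e (4 * (j : ℤ) + 4)) ≠ 0 := prod_ne_zero_iff.2 (fun j _ => e_ne (by omega))
  field_simp

lemma S_eq (n : ℕ) : S n = (1 - q)⁻¹ * ∑ k ∈ range n, T5 k := by
  unfold S
  rw [mul_sum]
  exact sum_congr rfl (fun k _ => term_eq k)

lemma inv_mem' {d : ℕ} (hd : 1 < d) : (1 - q)⁻¹ ∈ Loc (cyclotomic d ℚ) := by
  have := inv_one_sub_mem (N := d) (b := 1) (by
    intro h; have := Nat.le_of_dvd one_pos h; omega)
  rwa [pow_one] at this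

/-- the numbers `M0`, `t` attached to an odd `d` -/
lemma exists_M0 {d : ℕ} (hd : d % 2 = 1) : ∃ M0 t : ℕ, M0 * d + 1 = 4 * t ∧ M0 < 4 := by
  rcases (by omega : d % 4 = 1 ∨ d % 4 = 3) with h | h
  · exact ⟨3, (3 * d + 1) / 4, by omega, by norm_num⟩
  · exact ⟨1, (d + 1) / 4, by omega, by norm_num⟩

lemma mod_d {n d : ℕ} (hn : n % 2 = 1) (hd : d ∣ n) (hd1 : 1 < d) : QO (cyclotomic d ℚ) 1 (S n) := by
  obtain ⟨c, rfl⟩ := hd
  have hodd : d % 2 = 1 := Nat.odd_iff.1 (Nat.odd_mul.1 (Nat.odd_iff.2 hn)).1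
  obtain ⟨M0, t, h0, hM0⟩ := exists_M0 hodd
  rw [S_eq, sum_range_blocks]
  exact QO.mul_left (inv_mem' hd1) (QO.sum (fun J _ => blocks5 h0 hM0 hd1 J))

lemma mod_n {n : ℕ} (hn : n % 4 = 1) (hn1 : 1 < n) : QO (cyclotomic n ℚ) 3 (S n) := by
  rw [S_eq]
  exact QO.mul_left (inv_mem' hn1) (first5 (t := (3 * n + 1) / 4) (by omega) hn1)

/-- **Positive answer to Q1.** For every odd `n > 1`: `S_n(q) ≡ 0 (mod [n] Φ_n(q)^2)` if
`n ≡ 1 (mod 4)`, and `S_n(q) ≡ 0 (mod [n])` if `n ≡ 3 (mod 4)`. -/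
theorem result (n : ℕ) (hn : Odd n) (hn1 : 1 < n) :
    (n % 4 = 1 → Zero (br n * cyclotomic n ℚ ^ 2) (S n)) ∧ (n % 4 = 3 → Zero (br n) (S n)) := by
  have hn2 : n % 2 = 1 := Nat.odd_iff.1 hn
  have hn0 : 0 < n := by omega
  have hbr : br n = ∏ i ∈ n.divisors.erase 1, cyclotomic i ℚ := (prod_cyclotomic_eq_geom_sum hn0 ℚ).symm
  have hdv : ∀ d ∈ n.divisors.erase 1, IsCoprime (S n).denom (cyclotomic d ℚ) ∧ cyclotomic d ℚ ∣ (S n).num := by
    intro d hd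
    rw [mem_erase, Nat.mem_divisors] at hd
    have h1 : 1 < d := by
      have : 0 < d := Nat.pos_of_dvd_of_pos hd.2.1 hn0
      omega
    have := (mod_d hn2 hd.2.1 h1).num_denom
    rw [pow_one] at this
    exact ⟨this.2, this.1⟩
  have hmem : n ∈ n.divisors.erase 1 := by
    rw [mem_erase, Nat.mem_divisors]
    exact ⟨by omega, dvd_rfl, hn0.ne'⟩
  have hcop : IsCoprime (S n).denom (br n) := by
    rw [hbr]
    exact IsCoprime.prod_right (fun d hd => (hdv d hd).1)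
  constructor
  · intro h3
    refine ⟨hcop.mul_right ((hdv n hmem).1.pow_right), ?_⟩
    rw [hbr, ← mul_prod_erase _ _ hmem]
    have e1 : cyclotomic n ℚ * (∏ x ∈ (n.divisors.erase 1).erase n, cyclotomic x ℚ) * cyclotomic n ℚ ^ 2 =
        cyclotomic n ℚ ^ 3 * ∏ x ∈ (n.divisors.erase 1).erase n, cyclotomic x ℚ := by ring
    rw [e1]
    refine IsCoprime.mul_dvd ?_ (mod_n h3 hn1).num_denom.1 ?_
    · apply IsCoprime.pow_left
      apply IsCoprime.prod_right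
      intro i hi
      rw [mem_erase] at hi
      exact cyclotomic.isCoprime_rat (Ne.symm hi.1)
    · exact Finset.prod_dvd_of_coprime (fun i _ j _ hij => cyclotomic.isCoprime_rat hij)
        (fun d hd' => (hdv d (mem_of_mem_erase hd')).2)
  · intro _
    refine ⟨hcop, ?_⟩
    rw [hbr]
    exact Finset.prod_dvd_of_coprime (fun i _ j _ hij => cyclotomic.isCoprime_rat hij) (fun d hd => (hdv d hd).2)

end

end Pool.Agent.Results.MP_97831a_nt.AllOddN
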